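import Pool.Agent.Lib.MP_c1c6b6_al.Col

set_option autoImplicit false

open CategoryTheory

namespace Pool.Agent.Results.MP_c1c6b6_al.Columns

/-- A finite group with two semiproportional columns of its character table whose conjugacy
classes have ten and six elements. -/
theorem result : ∃ (G : Type) (_ : Group G) (_ : Fintype G) (x y : G),
    (¬ ∃ a b : ℂ, (a ≠ 0 ∨ b ≠ 0) ∧
      ∀ V : FDRep ℂ G, Simple V → a * V.character x = b * V.character y) ∧
    (∃ M : Set (G → ℂ),
      (∃ a b : ℂ, (a ≠ 0 ∨ b ≠ 0) ∧ ∀ V : FDRep ℂ G, Simple V → V.character ∈ M →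
        a * V.character x = b * V.character y) ∧
      (∃ a b : ℂ, (a ≠ 0 ∨ b ≠ 0) ∧ ∀ V : FDRep ℂ G, Simple V → V.character ∉ M →
        a * V.character x = b * V.character y)) ∧
    {g | IsConj x g}.ncard = 10 ∧ {g | IsConj y g}.ncard = 6 :=
  Pool.Agent.SemiProp.Col.columns

end Pool.Agent.Results.MP_c1c6b6_al.Columns
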