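import Pool.Agent.Lib.MP_c1c6b6_al.HZ5

set_option autoImplicit false

open CategoryTheory

namespace Pool.Agent.Results.MP_c1c6b6_al.HeightZero

/-- The value of the central character of `V` on the sum of the conjugacy class of `g`. -/
noncomputable def omega {G : Type} [Group G] (V : FDRep ℂ G) (g : G) : ℂ :=
  Nat.card {h : G // IsConj g h} * V.character g / Module.finrank ℂ V

/-- `V` and `W` lie in the same block with respect to the ideal `P` of the ring of all algebraic
integers: their central characters agree modulo `P` on every class sum. -/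
def SameBlock {G : Type} [Group G] (P : Ideal (integralClosure ℤ ℂ)) (V W : FDRep ℂ G) : Prop :=
  ∀ g : G, ∃ x ∈ P, (x : ℂ) = omega V g - omega W g

/-- `W` has height zero: the `l`-part of its degree is the least one in its block. -/
def IsHeightZero {G : Type} [Group G] (P : Ideal (integralClosure ℤ ℂ)) (l : ℕ) (W : FDRep ℂ G) :
    Prop :=
  ∀ U : FDRep ℂ G, Simple U → SameBlock P U W →
    padicValNat l (Module.finrank ℂ W) ≤ padicValNat l (Module.finrank ℂ U)

/-- Two semiproportional irreducible characters whose degrees have different `l`-parts: the block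
of the one with the smaller `l`-part contains one of the two as a character of positive height. -/
theorem result :
    ∀ (G : Type) [Group G] [Fintype G] (V W : FDRep ℂ G) (l : ℕ)
      (P : Ideal (integralClosure ℤ ℂ)),
      Simple V → Simple W → l.Prime → P.IsMaximal → (l : integralClosure ℤ ℂ) ∈ P →
      (¬ ∃ a b : ℂ, (a ≠ 0 ∨ b ≠ 0) ∧ ∀ g : G, a * V.character g = b * W.character g) →
      (∃ M : Set G, (∀ g h : G, g ∈ M → h * g * h⁻¹ ∈ M) ∧
        (∃ a b : ℂ, (a ≠ 0 ∨ b ≠ 0) ∧ ∀ g : G, g ∈ M → a * V.character g = b * W.character g) ∧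
        (∃ a b : ℂ, (a ≠ 0 ∨ b ≠ 0) ∧ ∀ g : G, g ∉ M → a * V.character g = b * W.character g)) →
      padicValNat l (Module.finrank ℂ W) < padicValNat l (Module.finrank ℂ V) →
      (SameBlock P V W ∧ l ^ (padicValNat l (Module.finrank ℂ V) + 2) ∣ Nat.card G) ∨
        (¬ IsHeightZero P l W ∧ l ^ (padicValNat l (Module.finrank ℂ W) + 2) ∣ Nat.card G) := by
  intro G _ _ V W l P _ _ hl hP hlP hnp ⟨M, _, hM, hM'⟩ hlt
  have hrel : ∀ g, (Module.finrank ℂ W : ℂ) * V.character g = Module.finrank ℂ V * W.character g ∨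
      (Module.finrank ℂ V : ℂ) * V.character g = -(Module.finrank ℂ W * W.character g) := by
    by_cases h1 : (1 : G) ∈ M
    · exact SemiProp.rel_of_semiproportional V W hnp M h1 hM hM'
    · refine SemiProp.rel_of_semiproportional V W hnp Mᶜ h1 hM' ?_
      simpa using hM
  obtain ⟨B, hB⟩ := SemiProp.HZ.exists_val P hP
  have hv : B.valuation (l : ℂ) < 1 := (hB _).1 hlP
  have hV := SemiProp.irr_of_simple V
  have hW := SemiProp.irr_of_simple W
  have sb : ∀ (U : FDRep ℂ G) [Simple U],
      SameBlock P U W ↔ SemiProp.HZ.SB B (V := U) (W := W) U.ρ W.ρ := fun U _ => by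
    refine forall_congr' fun g => ?_
    have e : omega U g - omega W g = SemiProp.HZ.om (V := U) U.ρ (SemiProp.HZ.cl g) -
        SemiProp.HZ.om (V := W) W.ρ (SemiProp.HZ.cl g) := by
      rw [SemiProp.HZ.om_cl, SemiProp.HZ.om_cl]
      rfl
    rw [e]
    refine ⟨fun ⟨x, hx, h⟩ => h ▸ (hB x).1 hx, fun h => ⟨⟨_, ?_⟩, (hB _).2 h, rfl⟩⟩
    exact (SemiProp.HZ.integral_om_cl (SemiProp.irr_of_simple U) g).sub
      (SemiProp.HZ.integral_om_cl hW g)
  by_cases hz : SemiProp.HZ.HZero B (W := W) W.ρ
  · have h1 := SemiProp.HZ.sb_of_rel hl hv hV hW hz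
      ((SemiProp.HZ.val_div_lt hl hv hV.finrank_pos.ne' hW.finrank_pos.ne').2 hlt) hrel
    exact Or.inl ⟨(sb V).2 h1, SemiProp.HZ.brauer_feit hl hv hV hW hz h1 hlt⟩
  · refine Or.inr ⟨fun h => hz fun U _ _ _ ρ h1 h2 => ?_, SemiProp.HZ.bound_of_not hl hv hW hz⟩
    have := SemiProp.HZ.simple_of_irr h1
    exact (SemiProp.HZ.div_mem_iff hl hv h1.finrank_pos.ne' hW.finrank_pos.ne').2
      (h (FDRep.of ρ) this ((sb (FDRep.of ρ)).2 h2))

end Pool.Agent.Results.MP_c1c6b6_al.HeightZero
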