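import Pool.Agent.Lib.MP_c1c6b6_al.SLF
import Pool.Agent.Lib.MP_c1c6b6_al.Simple

set_option autoImplicit false

open CategoryTheory

namespace Pool.Agent.Results.MP_c1c6b6_al.LinearGroups

/-- Belonogov's conjecture for every quotient `G` of a group `H` with `SL n F ≤ H ≤ GL n F`, for
every finite field `F` and every `n`. -/
theorem result :
    ∀ (F : Type) [Field F] [Fintype F] (n : ℕ) (H : Subgroup (GL (Fin n) F))
      (G : Type) [Group G] [Fintype G] (π : H →* G) (V W : FDRep ℂ G),
      (∀ g : GL (Fin n) F, (g : Matrix (Fin n) (Fin n) F).det = 1 → g ∈ H) →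
      Function.Surjective π → Simple V → Simple W →
      (¬ ∃ a b : ℂ, (a ≠ 0 ∨ b ≠ 0) ∧ ∀ g : G, a * V.character g = b * W.character g) →
      (∃ M : Set G, (∀ g h : G, g ∈ M → h * g * h⁻¹ ∈ M) ∧
        (∃ a b : ℂ, (a ≠ 0 ∨ b ≠ 0) ∧ ∀ g : G, g ∈ M → a * V.character g = b * W.character g) ∧
        (∃ a b : ℂ, (a ≠ 0 ∨ b ≠ 0) ∧ ∀ g : G, g ∉ M → a * V.character g = b * W.character g)) →
      V.character 1 = W.character 1 := by
  intro F _ _ n H G _ _ π V W hH hπ _ _ hnp ⟨M, _, hM, hM'⟩
  classical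
  have hrel : ∀ g, (Module.finrank ℂ W : ℂ) * V.character g = Module.finrank ℂ V * W.character g ∨
      (Module.finrank ℂ V : ℂ) * V.character g = -(Module.finrank ℂ W * W.character g) := by
    by_cases h1 : (1 : G) ∈ M
    · exact SemiProp.rel_of_semiproportional V W hnp M h1 hM hM'
    · refine SemiProp.rel_of_semiproportional V W hnp Mᶜ h1 hM' ?_
      simpa using hM
  rw [FDRep.char_one, FDRep.char_one, SemiProp.GLn.sl_main H hH
    (SemiProp.GLn.isIr_of_surj (SemiProp.irr_of_simple V) hπ)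
    (SemiProp.GLn.isIr_of_surj (SemiProp.irr_of_simple W) hπ)
    ((congrArg V.character π.map_one).trans V.char_one)
    ((congrArg W.character π.map_one).trans W.char_one) fun g => hrel (π g)]

end Pool.Agent.Results.MP_c1c6b6_al.LinearGroups
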