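import Pool.Agent.Lib.MP_c1c6b6_al.PN7

set_option autoImplicit false

open CategoryTheory

namespace Pool.Agent.Results.MP_c1c6b6_al.PNilpotent

/-- The image on `V` of the derived subgroup of `G` has a normal `p`-complement: some normal
subgroup `Q` of `G` acts on `V` by elements of order prime to `p`, and every element of the derived
subgroup has order a power of `p` modulo `Q`. -/
def DerivedPNilpotent {G : Type} [Group G] (V : FDRep ℂ G) (p : ℕ) : Prop :=
  ∃ Q : Subgroup G, Q.Normal ∧ (∀ q ∈ Q, ∃ k : ℕ, ¬ p ∣ k ∧ V.ρ (q ^ k) = 1) ∧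
    ∀ g ∈ commutator G, ∃ j : ℕ, g ^ p ^ j ∈ Q

/-- Belonogov's conjecture when the image of the derived subgroup on the representation of larger
degree is `p`-nilpotent for some prime `p` dividing `m ^ 2 + n ^ 2`, where `m : n` is the ratio of
the two degrees in lowest terms. -/
theorem result :
    ∀ (G : Type) [Group G] [Fintype G] (V W : FDRep ℂ G) (p : ℕ),
      Simple V → Simple W →
      Module.finrank ℂ W ≤ Module.finrank ℂ V →
      p.Prime →
      p ∣ (Module.finrank ℂ V / Nat.gcd (Module.finrank ℂ V) (Module.finrank ℂ W)) ^ 2 +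
        (Module.finrank ℂ W / Nat.gcd (Module.finrank ℂ V) (Module.finrank ℂ W)) ^ 2 →
      DerivedPNilpotent V p →
      (¬ ∃ a b : ℂ, (a ≠ 0 ∨ b ≠ 0) ∧ ∀ g : G, a * V.character g = b * W.character g) →
      (∃ M : Set G, (∀ g h : G, g ∈ M → h * g * h⁻¹ ∈ M) ∧
        (∃ a b : ℂ, (a ≠ 0 ∨ b ≠ 0) ∧ ∀ g : G, g ∈ M → a * V.character g = b * W.character g) ∧
        (∃ a b : ℂ, (a ≠ 0 ∨ b ≠ 0) ∧ ∀ g : G, g ∉ M → a * V.character g = b * W.character g)) →
      V.character 1 = W.character 1 := by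
  intro G _ _ V W p _ _ hle hp hpN ⟨Q, h1, h2, h3⟩ hnp ⟨M, _, hM, hM'⟩
  have hrel : ∀ g, (Module.finrank ℂ W : ℂ) * V.character g = Module.finrank ℂ V * W.character g ∨
      (Module.finrank ℂ V : ℂ) * V.character g = -(Module.finrank ℂ W * W.character g) := by
    by_cases h1 : (1 : G) ∈ M
    · exact Pool.Agent.SemiProp.rel_of_semiproportional V W hnp M h1 hM hM'
    · refine Pool.Agent.SemiProp.rel_of_semiproportional V W hnp Mᶜ h1 hM' ?_
      simpa using hM
  rw [FDRep.char_one, FDRep.char_one]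
  rcases hle.eq_or_lt with h | hlt
  · rw [h]
  · exact (Pool.Agent.SemiProp.core_rep (V := V) (W := W) (Pool.Agent.SemiProp.irr_of_simple V)
      (Pool.Agent.SemiProp.irr_of_simple W) hlt hrel hp hpN h1 h2 h3).elim

end Pool.Agent.Results.MP_c1c6b6_al.PNilpotent
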